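import Pool.Agent.helper79.WB.SpecII

/-!
# Project wb, row LINE: a linear form carries the edges of one lattice point only
-/

set_option autoImplicit false

namespace Pool.Agent.WB

open MvPolynomial

theorem LINE_deg1 (m : Fin 3 →₀ ℕ) (h : m.degree = 1) : ∃ i, m = Finsupp.single i 1 := by
  have h1 : (m.sum fun _ n => n) = 1 := by
    rw [Finsupp.degree_apply] at h
    exact h
  exact (Finsupp.sum_eq_one_iff m).1 h1

theorem LINE_lin (p : MvPolynomial (Fin 3) ℤ) (hp : p.IsHomogeneous 1) :
    p = ∑ i : Fin 3, C (coeff (Finsupp.single i 1) p) * X i := by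
  ext m
  rw [coeff_sum]
  by_cases hm : m.degree = 1
  · obtain ⟨i, rfl⟩ := LINE_deg1 m hm
    rw [Finset.sum_eq_single i]
    · rw [coeff_C_mul, coeff_X, if_pos rfl, mul_one]
    · intro j _ hj
      rw [coeff_C_mul, coeff_X, if_neg, mul_zero]
      intro h
      exact hj ((Finsupp.single_left_inj one_ne_zero).1 h)
    · intro h
      exact absurd (Finset.mem_univ i) h
  · have h0 : coeff m p = 0 := by
      by_contra hne
      exact hm (by
        have := hp hne
        rw [Finsupp.degree_eq_weight_one]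
        exact this)
    rw [h0]
    symm
    refine Finset.sum_eq_zero fun j _ => ?_
    rw [coeff_C_mul, coeff_X, if_neg, mul_zero]
    intro h
    refine hm ?_
    rw [← h, Finsupp.degree_single]

theorem LINE : LINE_stmt := by
  intro N T ξ F F₁ p hsub hp hp0 hE hT h1
  have hlin := LINE_lin p hp
  set a : ℤ := coeff (Finsupp.single 0 1) p with ha
  set b : ℤ := coeff (Finsupp.single 1 1) p with hb
  set c : ℤ := coeff (Finsupp.single 2 1) p with hc
  have hev : ∀ v : V3, eval v p = a * v 0 + b * v 1 + c * v 2 := by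
    intro v
    rw [hlin]
    simp only [Fin.sum_univ_three, map_add, map_mul, eval_C, eval_X]
    rfl
  have habc : ¬ (a = 0 ∧ b = 0 ∧ c = 0) := by
    rintro ⟨h0, h1', h2⟩
    apply hp0
    rw [hlin, Fin.sum_univ_three]
    change C a * X 0 + C b * X 1 + C c * X 2 = 0
    rw [h0, h1', h2]
    simp
  -- the equations for an edge
  have key : ∀ e ∈ F₁, ∀ u v : ℤ, onL u v e.1 → onL u v e.2 → a = c * v ∧ b = -(c * u) := by
    intro e he u v hu hv
    obtain ⟨hz, hη⟩ := h1 e he
    rw [hev] at hz hη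
    have hpr := (hE e (hsub he)).1
    have hd : dt e.1 e.2 ≠ 0 := by
      intro h
      rw [h] at hpr
      exact Nat.not_prime_zero hpr
    unfold onL at hu hv
    unfold dt at hd
    have e1 : (a - c * v) * e.1 0 + (b + c * u) * e.1 1 = 0 := by
      rw [← hu] at hz
      linear_combination hz
    have e2 : (a - c * v) * e.2 0 + (b + c * u) * e.2 1 = 0 := by
      rw [← hv] at hη
      linear_combination hη
    have e3 : (a - c * v) * (e.1 0 * e.2 1 - e.2 0 * e.1 1) = 0 := by
      linear_combination e.2 1 * e1 - e.1 1 * e2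
    have e4 : (b + c * u) * (e.1 0 * e.2 1 - e.2 0 * e.1 1) = 0 := by
      linear_combination e.1 0 * e2 - e.2 0 * e1
    rcases mul_eq_zero.1 e3 with h3 | h3
    · rcases mul_eq_zero.1 e4 with h4 | h4
      · exact ⟨by linarith, by linarith⟩
      · exact absurd h4 hd
    · exact absurd h3 hd
  rcases F₁.eq_empty_or_nonempty with he | ⟨e₀, he₀⟩
  · rw [he]; simp
  obtain ⟨u₀, v₀, hu₀, hv₀⟩ := (hE e₀ (hsub he₀)).2.2
  obtain ⟨ka, kb⟩ := key e₀ he₀ u₀ v₀ hu₀ hv₀
  have hc0 : c ≠ 0 := by
    intro h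
    apply habc
    rw [h] at ka kb
    refine ⟨by simpa using ka, by simpa using kb, h⟩
  have hsubset : (F₁ : Set (V3 × V3)) ⊆ {e : V3 × V3 | e ∈ F ∧ onL u₀ v₀ e.1 ∧ onL u₀ v₀ e.2} := by
    intro e he
    have he' : e ∈ F₁ := he
    obtain ⟨u, v, hu, hv⟩ := (hE e (hsub he')).2.2
    obtain ⟨ka', kb'⟩ := key e he' u v hu hv
    have hvv : v = v₀ := by
      have : c * v = c * v₀ := by rw [← ka', ← ka]
      exact mul_left_cancel₀ hc0 this
    have huu : u = u₀ := by
      have : c * u = c * u₀ := by linarith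
      exact mul_left_cancel₀ hc0 this
    subst hvv
    subst huu
    exact ⟨hsub he', hu, hv⟩
  have hfin : {e : V3 × V3 | e ∈ F ∧ onL u₀ v₀ e.1 ∧ onL u₀ v₀ e.2}.Finite :=
    F.finite_toSet.subset fun e he => he.1
  calc F₁.card = (F₁ : Set (V3 × V3)).ncard := (Set.ncard_coe_finset F₁).symm
    _ ≤ _ := Set.ncard_le_ncard hsubset hfin
    _ ≤ T := hT u₀ v₀

end Pool.Agent.WB
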